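import Pool.Agent.H512.DRB.Basic

/-!
# The de Rham–Betti form of the period conjecture: unconditional cases for `MT(ℤ)`

The objects, their comparison isomorphisms, de Rham–Betti subobjects and morphisms are those of the file
`Pool/Graph/R_pool_sql_team_seeded_ab47071d/Results/MP_e54452_nt/DeRhamBettiForm.lean` of the library; the
subtorsors are those of
`Pool/Graph/R_pool_sql_team_seeded_64922ed1/Results/MP_e54452_nt/SubtorsorsAndIrrationality.lean`. An object is a
finite dimensional graded vector space with operators `σ_3, σ_5, σ_7, …` which change the degree by `3, 5, 7, …`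
(the operator with the index `n : ℕ` is `σ_{2n+3}`); the ring of motivic periods enters through an arbitrary family
`u` of periods of words with `u_∅ = 1` and `u_m = ζ(m)`.

These files reduce the de Rham–Betti form of the period conjecture to the irrationality of odd zeta values. Here this
is combined with what is known about the odd zeta values (the irrationality of `ζ(5)`, irrational values in all
windows, many odd zeta values outside a given number field), which gives unconditional theorems, among them: the
de Rham–Betti form of the period conjecture is true for all mixed Tate motives over `ℤ` whose weights lie in an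
interval of length `12` (all multiple zeta values of weight at most six); it is true on a full Tannakian subcategory
whose Lie algebra is free on infinitely many of the generators, with an explicit lower bound for their number. For
coefficients in a number field `k` without purely imaginary elements (for example a real field or a field of odd
degree) the condition `ζ(m) ≠ a + b (2πi)^m` is the condition `ζ(m) ∉ k`, because `π` is transcendental.
-/

set_option autoImplicit false

namespace Pool.Agent.Results.MP_e54452_nt.UnconditionalDeRhamBetti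

open Pool.Agent.Results.MP_e54452_nt.DeRhamBettiForm
open Pool.Agent.Results.MP_e54452_nt.SubtorsorsAndIrrationality (IsTorsor lieAlgebra commutators periodMatrix
  motivicTorsor)

theorem alg_k (k : IntermediateField ℚ ℂ) [FiniteDimensional ℚ k] (x : k) :
    IsAlgebraic ℚ (algebraMap k ℂ x) :=
  (Algebra.IsAlgebraic.isAlgebraic (R := ℚ) x).algebraMap

theorem short {M : Obj ℚ} (hM : ∀ i j, M.d i ≤ M.d j + 6) (n : ℕ) (hn : M.σ n ≠ 0) :
    Irrational (oddZeta n) := by
  obtain ⟨i, j, hij⟩ : ∃ i j, M.σ n i j ≠ 0 := by
    by_contra hcon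
    push Not at hcon
    exact hn (Matrix.ext hcon)
  have h1 := M.raises n i j hij
  have h2 := hM i j
  have h3 : n = 0 ∨ n = 1 := by omega
  rcases h3 with rfl | rfl
  · exact Pool.Agent.H512.DRB.irr_three'
  · exact Pool.Agent.H512.DRB.irr_five

/-- **Unconditional cases of the de Rham–Betti form of the period conjecture for `MT(ℤ)`.** Let `u` be any family with
`u_∅ = 1` and `u_m = ζ(m)` for the words `m` with one letter.

(1) There is a set `I` of odd integers `m = 2n + 3` (described by the numbers `n`) with `3, 5 ∈ I`, which contains one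
of `7, 9, 11, 13` and for every odd `s ≥ 3` an odd `m` with `s < m < 3.6 s`, and which contains at least `K` elements of
`(b, s]` if `2^66 (b+1) K log (K+1) ≤ s` and `2^132 (b+1) K³ log (K+1) ≤ s²`, such that, for all objects of `MT(ℤ)` on
which only the generators `σ_m`, `m ∈ I`, act nontrivially: every de Rham–Betti subobject is motivic, every morphism of
de Rham–Betti structures is motivic, and every subtorsor over `ℚ` of the torsor of isomorphisms which contains the
period matrix contains the whole torsor of motivic periods.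

(2) For all objects of `MT(ℤ)` whose degrees lie in an interval of length `6` (weights in an interval of length `12`)
every de Rham–Betti subobject and every de Rham–Betti morphism is motivic.

(3) Let `k ⊆ ℂ` be a number field of odd degree, or a number field without nonzero purely imaginary elements (for
example a real one). There is a set `I` of odd integers `m ≥ 3`, which contains at least `K` elements of `(b, s]` if
`2^(264 [k:ℚ]) (b+1)² K³ log (K+1) ≤ s²`, such that the same holds for all objects of `MT(ℤ) ⊗ k` on which only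
`σ_m`, `m ∈ I`, act nontrivially (the de Rham–Betti structures having coefficients in `k`). -/
theorem result (u : List ℕ → ℂ) (h0 : u [] = 1) (h1 : ∀ n, u [n] = oddZeta n) :
    (∃ I : Set ℕ, 0 ∈ I ∧ 1 ∈ I ∧ (2 ∈ I ∨ 3 ∈ I ∨ 4 ∈ I ∨ 5 ∈ I) ∧
      (∀ n, ∃ m ∈ I, n < m ∧ 5 * (2 * m + 3) < 18 * (2 * n + 3)) ∧
      (∀ b K s : ℕ, 1 ≤ K → (2 : ℝ) ^ 66 * ((b : ℝ) + 1) * K * Real.log (K + 1) ≤ s →
        (2 : ℝ) ^ 132 * ((b : ℝ) + 1) * (K : ℝ) ^ 3 * Real.log (K + 1) ≤ (s : ℝ) ^ 2 →
        K ≤ Set.ncard {n : ℕ | b < 2 * n + 3 ∧ 2 * n + 3 ≤ s ∧ n ∈ I}) ∧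
      (∀ M : Obj ℚ, (∀ n ∉ I, M.σ n = 0) → M.Saturated u) ∧
      (∀ M N : Obj ℚ, (∀ n ∉ I, M.σ n = 0 ∧ N.σ n = 0) → Full M N u) ∧
      (∀ (B S : Type) [Fintype B] [DecidableEq B] [Fintype S] (d : B → ℕ) (l : S → ℕ),
        Function.Injective l → (∀ s, l s ∈ I) → ∀ N : S → Matrix B B ℂ,
        (∀ s b b', ∃ q : ℚ, N s b b' = q) → (∀ s b b', d b' ≠ d b + (2 * l s + 3) → N s b b' = 0) →
        ∀ ell ∈ lieAlgebra N, ell - ∑ s, (oddZeta (l s) : ℂ) • N s ∈ commutators N →
        ∀ T : Set (Matrix B B ℂ), IsTorsor T → periodMatrix d (2 * Real.pi * Complex.I) ell ∈ T →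
        motivicTorsor d N ⊆ T)) ∧
    ((∀ M : Obj ℚ, (∀ i j, M.d i ≤ M.d j + 6) → M.Saturated u) ∧
      (∀ M N : Obj ℚ, (∀ i j, M.d i ≤ M.d j + 6) → (∀ i j, N.d i ≤ N.d j + 6) → Full M N u)) ∧
    (∀ (k : IntermediateField ℚ ℂ) [FiniteDimensional ℚ k],
      (Odd (Module.finrank ℚ k) ∨ ∀ z ∈ k, z.re = 0 → z = 0) →
      ∃ I : Set ℕ, (∀ b K s : ℕ, 1 ≤ K →
        (2 : ℝ) ^ (264 * Module.finrank ℚ k) * ((b : ℝ) + 1) ^ 2 * (K : ℝ) ^ 3 * Real.log (K + 1) ≤ (s : ℝ) ^ 2 →
        K ≤ Set.ncard {n : ℕ | b < 2 * n + 3 ∧ 2 * n + 3 ≤ s ∧ n ∈ I}) ∧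
      (∀ M : Obj k, (∀ n ∉ I, M.σ n = 0) → M.Saturated u) ∧
      (∀ M N : Obj k, (∀ n ∉ I, M.σ n = 0 ∧ N.σ n = 0) → Full M N u)) := by
  obtain ⟨hS, hF, -⟩ := DeRhamBettiForm.result u h0 h1
  refine ⟨⟨{n | Irrational (oddZeta n)}, Pool.Agent.H512.DRB.irr_three', Pool.Agent.H512.DRB.irr_five,
    Pool.Agent.Results.MP_c2395a_nt.OddZeta7To13.result, ?_, ?_, ?_, ?_, ?_⟩, ⟨?_, ?_⟩, ?_⟩
  · exact Pool.Agent.H512.DRB.windows
  · exact Pool.Agent.H512.DRB.many_irr
  · intro M hM
    exact hS M fun n hn => by
      by_contra hcon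
      exact hn (hM n hcon)
  · intro M N hMN
    exact hF M N fun n hn => by
      by_contra hcon
      obtain ⟨h2, h3⟩ := hMN n hcon
      rcases hn with hn | hn
      · exact hn h2
      · exact hn h3
  · intro B S _ _ _ d l hl hlI N hrat hdeg ell hell hell1 T hT hC
    exact (SubtorsorsAndIrrationality.result d (fun s => 2 * l s + 3)
      (fun s s' h => hl (by simp only at h; omega)) (fun s => ⟨⟨l s + 1, by ring⟩, by omega⟩) N hrat hdeg ell hell
      hell1 T hT hC).2 hlI
  · exact fun M hM => hS M fun n hn => short hM n hn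
  · intro M N hM hN
    exact hF M N fun n hn => by
      rcases hn with hn | hn
      · exact short hM n hn
      · exact short hN n hn
  · intro k _ hk
    have hk' : ∀ z ∈ k, z.re = 0 → z = 0 := by
      rcases hk with hk | hk
      · exact Pool.Agent.H512.DRB.no_imag_of_odd hk
      · exact hk
    refine ⟨{n | (oddZeta n : ℂ) ∉ k}, fun b K s hK hs => Pool.Agent.H512.DRB.many_outside b K s _ hK hs k le_rfl,
      fun M hM => ?_, fun M N hMN => ?_⟩
    · exact sat_of (alg_k k) h0 h1 M fun n hn => Pool.Agent.H512.DRB.cond_of_not_mem hk' (by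
        by_contra hcon
        exact hn (hM n (fun h => h hcon)))
    · exact full_of (alg_k k) h0 h1 M N
        (fun n hn => Pool.Agent.H512.DRB.cond_of_not_mem hk' (by
          by_contra hcon
          exact hn (hMN n (fun h => h hcon)).1))
        (fun n hn => Pool.Agent.H512.DRB.cond_of_not_mem hk' (by
          by_contra hcon
          exact hn (hMN n (fun h => h hcon)).2))

end Pool.Agent.Results.MP_e54452_nt.UnconditionalDeRhamBetti
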